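import Pool.Agent.N794.CG.Gen2

/-!
# Joint moments of the coefficients `a_1(p)` and `a_2(p)` of the normalized Euler factors of the Jacobians of curves of genus `2` with coefficients in automatic sets

The curves are `Y ^ 2 = X ^ 5 + m 4 X ^ 4 + ... + m 0`. The main terms are the joint moments of the coefficients `a_1`, `a_2` of the
characteristic polynomial of a random matrix in `USp(4)`.

From Mathlib: `DFA ℕ σ`: finite automata (for `[Fintype σ]`) which read words of natural numbers; `Nat.digits b v`: the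
digits of `v` in base `b`, the least significant digit first.

Method: the random member of an automatic set of more than polylogarithmic size is dominated, up to a power of the
logarithm, by a random integer whose characteristic function decays (starting library, `Pool.Agent.H491R4.AF`); the
passage from there to sums over primes of functions of residues, for almost all members, is from the starting library
(`Pool.Agent.R459.Eq`) in the case of one variable; here an induction on the number of the coefficients. The local means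
are from the starting library (`Pool.Agent.V11210.G2`, `Pool.Agent.Y57.FD`).
-/

set_option autoImplicit false

namespace Pool.Agent.Results.MP_6dc561_nt.AutomaticCoefficients

open Finset Filter Pool.Agent.N794.CG

open Classical in
/-- The integers `0 ≤ v < N` whose digits in base `b` (the least significant digit first) are accepted by the automaton
`M`. -/
noncomputable def members {σ : Type} (b : ℕ) (M : DFA ℕ σ) (N : ℕ) : Finset ℕ :=
  (range N).filter (fun v => Nat.digits b v ∈ M.accepts)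

/-- The number of the solutions of `Y ^ 2 = X ^ 5 + m 4 X ^ 4 + ... + m 1 X + m 0` in the field with `p` elements. -/
noncomputable def points₁ (p : ℕ) (m : Fin 5 → ℤ) : ℕ :=
  Nat.card {P : ZMod p × ZMod p // P.2 ^ 2 = P.1 ^ 5 + ∑ i, (m i : ZMod p) * P.1 ^ (i : ℕ)}

open Classical in
/-- The number of the solutions of `Y ^ 2 = X ^ 5 + m 4 X ^ 4 + ... + m 1 X + m 0` in the field with `p ^ 2` elements. -/
noncomputable def points₂ (p : ℕ) (m : Fin 5 → ℤ) : ℕ :=
  if h : p.Prime then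
    haveI : Fact p.Prime := ⟨h⟩
    Nat.card {P : GaloisField p 2 × GaloisField p 2 // P.2 ^ 2 = P.1 ^ 5 + ∑ i, (m i : GaloisField p 2) * P.1 ^ (i : ℕ)}
  else 0

/-- `p` is odd and `X ^ 5 + m 4 X ^ 4 + ... + m 0` is separable modulo `p`, so that the curve of genus `2` with this equation is
smooth modulo `p`. -/
def Smooth (p : ℕ) (m : Fin 5 → ℤ) : Prop :=
  p ≠ 2 ∧ (Polynomial.X ^ 5 + ∑ i, Polynomial.C (m i : ZMod p) * Polynomial.X ^ (i : ℕ)).Separable

open Classical in
/-- The coefficient `a_1` of the normalized Euler factor `L_p(T / p ^ (1 / 2)) = 1 + a_1 T + a_2 T ^ 2 + a_1 T ^ 3 + T ^ 4` of the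
Jacobian of the curve `C : Y ^ 2 = X ^ 5 + m 4 X ^ 4 + ... + m 0`: the number `#C(F_p) - (p + 1)` divided by `p ^ (1 / 2)` (there is
one point at infinity, so that `#C(F_p) = points₁ p m + 1`), and `0` if the curve is not smooth modulo `p`. -/
noncomputable def a₁ (p : ℕ) (m : Fin 5 → ℤ) : ℝ :=
  if Smooth p m then (((points₁ p m : ℝ) + 1) - ((p : ℝ) + 1)) / Real.sqrt p else 0

open Classical in
/-- The coefficient `a_2` of the normalized Euler factor `L_p(T / p ^ (1 / 2)) = 1 + a_1 T + a_2 T ^ 2 + a_1 T ^ 3 + T ^ 4`: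
the number `((#C(F_p) - (p + 1)) ^ 2 + #C(F_{p ^ 2}) - (p ^ 2 + 1)) / (2 p)` (where `#C(F_{p ^ 2}) = points₂ p m + 1`), and `0` if
the curve is not smooth modulo `p`. -/
noncomputable def a₂ (p : ℕ) (m : Fin 5 → ℤ) : ℝ :=
  if Smooth p m then
    ((((points₁ p m : ℝ) + 1) - ((p : ℝ) + 1)) ^ 2 + (((points₂ p m : ℝ) + 1) - ((p : ℝ) ^ 2 + 1))) / (2 * p)
  else 0

/-- The mean of `a_1 ^ i a_2 ^ j` over the characteristic polynomials `1 + a_1 T + a_2 T ^ 2 + a_1 T ^ 3 + T ^ 4` of the matrices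
in `USp(4)` (for the pairs `(i, j)` used below). -/
def moment : ℕ → ℕ → ℝ
  | 0, 0 => 1
  | 2, 0 => 1
  | 4, 0 => 3
  | 6, 0 => 14
  | 0, 1 => 1
  | 2, 1 => 2
  | 0, 2 => 2
  | _, _ => 0

open Classical in
/-- The number of the primes `p ≤ x` in `T`. -/
noncomputable def number (T : Set ℕ) (x : ℕ) : ℕ := ((range (x + 1)).filter (fun p => p.Prime ∧ p ∈ T)).card

open Classical in
/-- For all pairs `(i, j)` with `i + 2 j ≤ 5` or `i ≤ 7`, `j = 0` and all `t ≤ x ^ (δ / 4)`: the sum over the primes `p ≤ x` in `T t`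
of `a_1(p) ^ i a_2(p) ^ j` differs from `moment i j` times the number of these primes by at most `x ^ δ` times the square root
of the number of the primes `p ≤ 2 x` in `T t` (or of `1`). -/
def Moments (δ : ℝ) (T : ℕ → Set ℕ) (x : ℕ) (m : Fin 5 → ℤ) : Prop :=
  ∀ i j : ℕ, (i + 2 * j ≤ 5 ∨ (i ≤ 7 ∧ j = 0)) → ∀ t : ℕ, (t : ℝ) ≤ (x : ℝ) ^ (δ / 4) →
    |∑ p ∈ (range (x + 1)).filter (fun p => p.Prime ∧ p ∈ T t), a₁ p m ^ i * a₂ p m ^ j - moment i j * number (T t) x| ≤
      Real.sqrt (max 1 (number (T t) (2 * x) : ℝ)) * (x : ℝ) ^ δ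

lemma moment_eq (i j : ℕ) (h : i + 2 * j ≤ 5 ∨ (i ≤ 7 ∧ j = 0)) : moment i j = Pool.Agent.V11210.G2.mm 2 i j := by
  have hj : j ≤ 2 := by omega
  have hi : i ≤ 7 := by omega
  unfold Pool.Agent.V11210.G2.mm Pool.Agent.Y57.FD.Mom.usp Pool.Agent.Y57.FD.Mom.normal
  interval_cases j <;> interval_cases i <;> first
    | omega
    | (simp [moment, Nat.doubleFactorial, Nat.even_iff]; done)
    | (simp [moment, Nat.doubleFactorial, Nat.even_iff]; norm_num)

lemma card_affine {F : Type} [Field F] [Fintype F] [DecidableEq F] (hF : ringChar F ≠ 2) (f : F → F) :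
    (Nat.card {P : F × F // P.2 ^ 2 = f P.1} : ℝ) = (Fintype.card F : ℝ) + ∑ x : F, (quadraticChar F (f x) : ℝ) := by
  classical
  have h1 : Nat.card {P : F × F // P.2 ^ 2 = f P.1} = ∑ x : F, Nat.card {y : F // y ^ 2 = f x} := by
    rw [← Nat.card_sigma]
    refine Nat.card_congr ⟨fun P => ⟨P.1.1, ⟨P.1.2, P.2⟩⟩, fun P => ⟨(P.1, P.2.1), P.2.2⟩, fun _ => rfl, fun _ => rfl⟩
  have h2 : ∀ x : F, ((Nat.card {y : F // y ^ 2 = f x} : ℕ) : ℤ) = quadraticChar F (f x) + 1 := by
    intro x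
    rw [← quadraticChar_card_sqrts hF (f x)]
    congr 1
    rw [Nat.card_eq_fintype_card, Fintype.card_subtype]
    congr 1
    ext y
    simp
  rw [h1]
  push_cast
  have h3 : ∀ x : F, ((Nat.card {y : F // y ^ 2 = f x} : ℕ) : ℝ) = (quadraticChar F (f x) : ℝ) + 1 := by
    intro x
    have := h2 x
    exact_mod_cast this
  rw [sum_congr rfl (fun x _ => h3 x), sum_add_distrib, sum_const, card_univ, nsmul_eq_mul, mul_one]
  ring

lemma pol_eq (p : ℕ) [Fact p.Prime] (m : Fin 5 → ℕ) : (Pool.Agent.Y57.FD.HM.pol p (D := 2 * 2 + 1) (fun i => ((m i : ℕ) : ZMod p))) =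
    Polynomial.X ^ 5 + ∑ i, Polynomial.C (m i : ZMod p) * Polynomial.X ^ (i : ℕ) := rfl

lemma smooth_iff (p : ℕ) (hp : p.Prime) (m : Fin 5 → ℤ) : Smooth p m ↔ p ≠ 2 ∧
    (Polynomial.X ^ 5 + ∑ i, Polynomial.C (red p m i : ZMod p) * Polynomial.X ^ (i : ℕ)).Separable := by
  haveI : Fact p.Prime := ⟨hp⟩
  unfold Smooth
  simp only [red_cast p hp.pos m (ZMod p)]

lemma points₁_eq (p : ℕ) [hp : Fact p.Prime] (h2 : p ≠ 2) (m : Fin 5 → ℤ) :
    (points₁ p m : ℝ) = (p : ℝ) + ∑ x : ZMod p, (quadraticChar (ZMod p)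
      (Pool.Agent.Y57.FD.Mom.val (ZMod p) (2 * 2 + 1) (fun i => ((red p m i : ℕ) : ZMod p)) x) : ℝ) := by
  unfold points₁
  have e : ∀ i, ((m i : ℤ) : ZMod p) = ((red p m i : ℕ) : ZMod p) := fun i => (red_cast p hp.out.pos m (ZMod p) i).symm
  simp only [e]
  rw [card_affine (Pool.Agent.V11210.G2.ringChar_zmod p h2) (fun x => x ^ 5 + ∑ i, (red p m i : ZMod p) * x ^ (i : ℕ)), ZMod.card]
  rfl

lemma points₂_eq (p : ℕ) [hp : Fact p.Prime] (h2 : p ≠ 2) (m : Fin 5 → ℤ) :
    (points₂ p m : ℝ) = (p : ℝ) ^ 2 + Pool.Agent.V11210.G2.SG p (D := 2 * 2 + 1) (fun i => ((red p m i : ℕ) : ZMod p)) := by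
  classical
  letI : Fintype (GaloisField p 2) := Fintype.ofFinite _
  unfold points₂
  have e : ∀ i, ((m i : ℤ) : GaloisField p 2) = ((red p m i : ℕ) : GaloisField p 2) :=
    fun i => (red_cast p hp.out.pos m (GaloisField p 2) i).symm
  rw [dif_pos hp.out]
  simp only [e]
  rw [card_affine (Pool.Agent.V11210.G2.charL (ZMod p) (GaloisField p 2) (Pool.Agent.V11210.G2.ringChar_zmod p h2))
    (fun x : GaloisField p 2 => x ^ 5 + ∑ i, (red p m i : GaloisField p 2) * x ^ (i : ℕ)), ← Nat.card_eq_fintype_card,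
    GaloisField.card p 2 (by norm_num)]
  push_cast
  congr 1

lemma a₁_eq (p : ℕ) (hp : p.Prime) (m : Fin 5 → ℤ) : a₁ p m = Pool.Agent.Y57.FD.HM.tr 2 p (red p m) := by
  classical
  haveI : Fact p.Prime := ⟨hp⟩
  unfold a₁ Pool.Agent.Y57.FD.HM.tr
  by_cases h2 : p = 2
  · rw [if_neg (fun h => h.1 h2), dif_neg (fun h => h.2 h2)]
  · rw [dif_pos ⟨hp, h2⟩]
    by_cases h3 : (Pool.Agent.Y57.FD.HM.pol p (D := 2 * 2 + 1) (fun i => ((red p m i : ℕ) : ZMod p))).Separable
    · have h4 : Smooth p m := (smooth_iff p hp m).2 ⟨h2, by rw [pol_eq] at h3; exact h3⟩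
      rw [if_pos h4, if_pos h3, points₁_eq p h2, ZMod.card]
      congr 1
      ring
    · have h4 : ¬ Smooth p m := fun h => h3 (by rw [pol_eq]; exact ((smooth_iff p hp m).1 h).2)
      rw [if_neg h4, if_neg h3]

lemma a₂_eq (p : ℕ) (hp : p.Prime) (m : Fin 5 → ℤ) : a₂ p m = Pool.Agent.V11210.G2.A2 2 p (red p m) := by
  classical
  haveI : Fact p.Prime := ⟨hp⟩
  have hp0 : (0 : ℝ) < p := by exact_mod_cast hp.pos
  have e1 := a₁_eq p hp m
  unfold a₂ Pool.Agent.V11210.G2.A2
  by_cases h2 : p = 2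
  · rw [if_neg (fun h => h.1 h2), dif_neg (fun h => h.2 h2)]
  · rw [dif_pos ⟨hp, h2⟩]
    by_cases h3 : (Pool.Agent.Y57.FD.HM.pol p (D := 2 * 2 + 1) (fun i => ((red p m i : ℕ) : ZMod p))).Separable
    · have h4 : Smooth p m := (smooth_iff p hp m).2 ⟨h2, by rw [pol_eq] at h3; exact h3⟩
      rw [if_pos h4, if_pos h3, points₂_eq p h2, ← e1]
      unfold a₁
      rw [if_pos h4, div_pow, Real.sq_sqrt hp0.le]
      field_simp
      ring
    · have h4 : ¬ Smooth p m := fun h => h3 (by rw [pol_eq]; exact ((smooth_iff p hp m).1 h).2)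
      rw [if_neg h4, if_neg h3]

lemma number_eq (T : Set ℕ) (x : ℕ) : number T x = cntT T x := by
  classical
  unfold number cntT
  congr 1
  ext p
  rw [mem_filter, mem_filter, mem_range, Pool.Agent.R459.Eq.mem_pri]
  constructor
  · rintro ⟨h1, h2, h3⟩
    exact ⟨⟨by omega, h2⟩, h3⟩
  · rintro ⟨⟨h1, h2⟩, h3⟩
    exact ⟨by omega, h2, h3⟩

lemma good_moments (δ : ℝ) (T : ℕ → Set ℕ) (x : ℕ) (m : Fin 5 → ℤ)
    (h : GoodQ (D := 5) δ T adm2 (fun ij p m => Pool.Agent.Y57.FD.HM.tr 2 p (red p m) ^ ij.1 *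
      Pool.Agent.V11210.G2.A2 2 p (red p m) ^ ij.2) (fun ij _ => Pool.Agent.V11210.G2.mm 2 ij.1 ij.2) x m) : Moments δ T x m := by
  classical
  intro i j hij t ht
  have h1 := h (i, j) ((mem_adm2 (i, j)).2 hij) t ht
  rw [number_eq, number_eq]
  refine le_trans (le_of_eq ?_) h1
  congr 1
  have e : (range (x + 1)).filter (fun p => p.Prime ∧ p ∈ T t) =
      (Pool.Agent.R459.Eq.pri x).filter (fun p => p ∈ T t) := by
    ext p
    rw [mem_filter, mem_filter, mem_range, Pool.Agent.R459.Eq.mem_pri]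
    constructor
    · rintro ⟨h1, h2, h3⟩
      exact ⟨⟨by omega, h2⟩, h3⟩
    · rintro ⟨⟨h1, h2⟩, h3⟩
      exact ⟨by omega, h2, h3⟩
  rw [← sum_filter, sum_sub_distrib, sum_const, nsmul_eq_mul, e, moment_eq i j hij, mul_comm (Pool.Agent.V11210.G2.mm 2 i j)]
  congr 1
  · apply sum_congr rfl
    intro p hp
    have hpp := (Pool.Agent.R459.Eq.mem_pri.1 (mem_filter.1 hp).1).2
    rw [a₁_eq p hpp, a₂_eq p hpp]

open Classical in
/-- Let `0 < δ ≤ 1`. Let `A i` be finite automata, where `A i` accepts the digits, in base `b i ≥ 2`, of more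
than polylogarithmically many integers: for every `k` there are infinitely many `N` such that more than `(log N) ^ k`
integers `v < N` are accepted (this excludes only sparse sets; the number of the accepted `v < N` may be `N ^ c` with
arbitrarily small `c > 0`). There are `W` and `e` such that for all `κ i ≠ 0` and all sufficiently large `X` the following
holds for all `N i`, all integers `c i` and ALL sequences `T j` of pairwise disjoint sets of primes.

If every coefficient `m i = c i + κ i v i` runs through the `v i < N i` accepted by `A i`, then with the exception of at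
most a proportion `(∑ (1 + log N i) ^ e) X ^ (- δ / 8)` of the vectors, the Jacobian of the curve `Y ^ 2 = X ^ 5 + m 4 X ^ 4 + ... + m 0` of genus `2` has the following property for
ALL `x ≥ X` with `x ^ W ≤ N i` for all `i`: for all pairs `(i, j)` with `i + 2 j ≤ 5` or `i ≤ 7`, `j = 0` the mean of `a_1(p) ^ i a_2(p) ^ j` over the primes `p ≤ x` in `T t` is the mean of `a_1 ^ i a_2 ^ j` over `USp(4)`, up to an error of the sums of `x ^ δ` times the square root of the number of the primes `p ≤ 2 x` in `T t`, for ALL `t ≤ x ^ (δ / 4)`. -/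
theorem result  (δ : ℝ) (hδ : 0 < δ) (hδ1 : δ ≤ 1) (σ : Fin 5 → Type) [∀ i, Fintype (σ i)] (b : Fin 5 → ℕ)
    (hb : ∀ i, 2 ≤ b i) (A : ∀ i, DFA ℕ (σ i))
    (hS : ∀ i, ∀ k : ℕ, ∃ᶠ N : ℕ in atTop, Real.log N ^ k < ((members (b i) (A i) N).card : ℝ)) : ∃ W e : ℕ, 1 ≤ W ∧
    ∀ κ : Fin 5 → ℤ, (∀ i, κ i ≠ 0) → ∃ X₀ : ℕ, ∀ X : ℕ, X₀ ≤ X → ∀ (N : Fin 5 → ℕ) (c : Fin 5 → ℤ) (T : ℕ → Set ℕ),
    (∀ p j j', p ∈ T j → p ∈ T j' → j = j') →
    (((Fintype.piFinset (fun i => members (b i) (A i) (N i))).filter (fun v => ¬ ∀ x : ℕ, X ≤ x → (∀ i, x ^ W ≤ N i) →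
      Moments δ T x (fun i => c i + κ i * v i))).card : ℝ) ≤
      ((∑ i, (1 + Real.log (N i)) ^ e) * (X : ℝ) ^ (-(δ / 8))) * ∏ i, ((members (b i) (A i) (N i)).card : ℝ) := by
  obtain ⟨W, e, hW, H⟩ := multi_aut g2_data δ hδ hδ1 σ b hb A hS
  refine ⟨W, e, hW, fun κ hκ => ?_⟩
  obtain ⟨X₀, J⟩ := H κ hκ
  refine ⟨X₀, fun X hX N c T hT => ?_⟩
  refine le_trans (Nat.cast_le.2 (card_le_card fun v hv => ?_)) (J X hX N c T hT)
  rw [mem_filter] at hv ⊢
  exact ⟨hv.1, fun hcon => hv.2 fun x hXx hx => good_moments δ T x _ (hcon x hXx hx)⟩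

end Pool.Agent.Results.MP_6dc561_nt.AutomaticCoefficients
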