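import Pool.Agent.N794.CG.Gen2

/-!
# Joint moments of the coefficients `a_1(p)` and `a_2(p)` of the normalized Euler factors of the Jacobians of curves of genus `2` with random coefficients whose blocks of digits can be exchanged

The curves are `Y ^ 2 = X ^ 5 + m 4 X ^ 4 + ... + m 0`. The main terms are the joint moments of the coefficients `a_1`, `a_2` of the
characteristic polynomial of a random matrix in `USp(4)`.

Method: if blocks of digits can be exchanged then the exponential sums are exponentially small in the number of the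
places at which the frequency is not close to a rational number with a small denominator (helper625,
`Pool.Agent.N625.PT`); a mixture with the uniform distribution has the decay which is needed for the passage to sums over
primes of functions of residues, which is from the starting library (`Pool.Agent.R459.Eq`) in the case of one variable;
here an induction on the number of the coefficients. The local means are from the starting library (`Pool.Agent.V11210.G2`, `Pool.Agent.Y57.FD`).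
-/

set_option autoImplicit false

namespace Pool.Agent.Results.MP_6dc561_nt.ExchangeableCoefficients

open Finset Filter Pool.Agent.N794.CG

/-- The probability, for the distribution `μ` on the words of `k` digits (the integers `v < b ^ k`), that the word begins with
the `i` digits of `u < b ^ i`. -/
noncomputable def begins (b k : ℕ) (μ : ℕ → ℝ) (i u : ℕ) : ℝ := ∑ w ∈ range (b ^ (k - i)), μ (u * b ^ (k - i) + w)

/-- `p` is a probability on the words of `k` digits in base `b`, read as integers `v < b ^ k`. There is another probability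
`μ` with `p ≤ k ^ T μ` such that after every beginning `u` two different blocks `a`, `a'` of `L` digits can be exchanged:
`p (u a w) = r p (u a' w)` for all endings `w`, with a factor `r` between `η` and `1 / η` which does not depend on `w`; and
given the beginning `u`, each of the two blocks comes next with a probability of at least `η` in the distribution `μ`.
(For `T = 0` one has `μ = p`. For the uniform distribution on a set of words `r` is `1`.) -/
structure Exchangeable (b L : ℕ) (η : ℝ) (T k : ℕ) (p : ℕ → ℝ) : Prop where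
  nonneg : ∀ v, 0 ≤ p v
  sum : ∑ v ∈ range (b ^ k), p v = 1
  dominated : ∃ μ : ℕ → ℝ, (∀ v, 0 ≤ μ v) ∧ ∑ v ∈ range (b ^ k), μ v = 1 ∧ (∀ v < b ^ k, p v ≤ (k : ℝ) ^ T * μ v) ∧
    ∀ i u : ℕ, i + L ≤ k → u < b ^ i → ∃ (a a' : ℕ) (r : ℝ), a < a' ∧ a' < b ^ L ∧ η ≤ r ∧ η * r ≤ 1 ∧
      (∀ w < b ^ (k - (i + L)), p ((b ^ L * u + a) * b ^ (k - (i + L)) + w) = r * p ((b ^ L * u + a') * b ^ (k - (i + L)) + w)) ∧
      η * begins b k μ i u ≤ begins b k μ (i + L) (b ^ L * u + a) ∧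
      η * begins b k μ i u ≤ begins b k μ (i + L) (b ^ L * u + a')

lemma begins_sum (b k : ℕ) (μ : ℕ → ℝ) (i u : ℕ) (hi : i < k) :
    ∑ a ∈ range b, begins b k μ (i + 1) (b * u + a) = begins b k μ i u := by
  unfold begins
  obtain ⟨n, hn⟩ : ∃ n, k - i = n + 1 := ⟨k - i - 1, by omega⟩
  have h1 : k - (i + 1) = n := by omega
  rw [h1, hn, pow_succ, mul_comm (b ^ n) b, Pool.Agent.N625.PT.sum_blocks b (b ^ n)]
  apply sum_congr rfl
  intro a _
  apply sum_congr rfl
  intro w _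
  congr 1
  ring

lemma flex_of {b L T k : ℕ} {η : ℝ} {p : ℕ → ℝ} (hp : Exchangeable b L η T k p) : Pool.Agent.N625.PT.Flex b L η T k p := by
  obtain ⟨h0, h1, μ, m0, m1, m2, m3⟩ := hp
  have hT : (0 : ℝ) ≤ (k : ℝ) ^ T := by positivity
  have hb0 : ∀ i u, 0 ≤ begins b k μ i u := fun i u => sum_nonneg fun w _ => m0 _
  refine ⟨h0, h1, fun i u => (k : ℝ) ^ T * begins b k μ i u, fun i u => mul_nonneg hT (hb0 i u), ?_, ?_, ?_, ?_⟩
  · intro v hv
    refine (m2 v hv).trans (le_of_eq ?_)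
    unfold begins
    simp
  · intro i hi u _
    simp only
    rw [← mul_sum, begins_sum b k μ i u hi]
  · simp only
    have : begins b k μ 0 0 = 1 := by
      unfold begins
      simpa using m1
    rw [this, mul_one]
  · intro i u hi hu
    obtain ⟨a, a', r, q1, q2, q3, q4, q5, q6, q7⟩ := m3 i u hi hu
    refine ⟨a, a', r, q1, q2, q3, q4, q5, ?_, ?_⟩
    · simp only
      calc η * ((k : ℝ) ^ T * begins b k μ i u) = (k : ℝ) ^ T * (η * begins b k μ i u) := by ring
        _ ≤ _ := mul_le_mul_of_nonneg_left q6 hT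
    · simp only
      calc η * ((k : ℝ) ^ T * begins b k μ i u) = (k : ℝ) ^ T * (η * begins b k μ i u) := by ring
        _ ≤ _ := mul_le_mul_of_nonneg_left q7 hT

/-- The number of the solutions of `Y ^ 2 = X ^ 5 + m 4 X ^ 4 + ... + m 1 X + m 0` in the field with `p` elements. -/
noncomputable def points₁ (p : ℕ) (m : Fin 5 → ℤ) : ℕ :=
  Nat.card {P : ZMod p × ZMod p // P.2 ^ 2 = P.1 ^ 5 + ∑ i, (m i : ZMod p) * P.1 ^ (i : ℕ)}

open Classical in
/-- The number of the solutions of `Y ^ 2 = X ^ 5 + m 4 X ^ 4 + ... + m 1 X + m 0` in the field with `p ^ 2` elements. -/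
noncomputable def points₂ (p : ℕ) (m : Fin 5 → ℤ) : ℕ :=
  if h : p.Prime then
    haveI : Fact p.Prime := ⟨h⟩
    Nat.card {P : GaloisField p 2 × GaloisField p 2 // P.2 ^ 2 = P.1 ^ 5 + ∑ i, (m i : GaloisField p 2) * P.1 ^ (i : ℕ)}
  else 0

/-- `p` is odd and `X ^ 5 + m 4 X ^ 4 + ... + m 0` is separable modulo `p`, so that the curve of genus `2` with this equation is
smooth modulo `p`. -/
def Smooth (p : ℕ) (m : Fin 5 → ℤ) : Prop :=
  p ≠ 2 ∧ (Polynomial.X ^ 5 + ∑ i, Polynomial.C (m i : ZMod p) * Polynomial.X ^ (i : ℕ)).Separable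

open Classical in
/-- The coefficient `a_1` of the normalized Euler factor `L_p(T / p ^ (1 / 2)) = 1 + a_1 T + a_2 T ^ 2 + a_1 T ^ 3 + T ^ 4` of the
Jacobian of the curve `C : Y ^ 2 = X ^ 5 + m 4 X ^ 4 + ... + m 0`: the number `#C(F_p) - (p + 1)` divided by `p ^ (1 / 2)` (there is
one point at infinity, so that `#C(F_p) = points₁ p m + 1`), and `0` if the curve is not smooth modulo `p`. -/
noncomputable def a₁ (p : ℕ) (m : Fin 5 → ℤ) : ℝ :=
  if Smooth p m then (((points₁ p m : ℝ) + 1) - ((p : ℝ) + 1)) / Real.sqrt p else 0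

open Classical in
/-- The coefficient `a_2` of the normalized Euler factor `L_p(T / p ^ (1 / 2)) = 1 + a_1 T + a_2 T ^ 2 + a_1 T ^ 3 + T ^ 4`:
the number `((#C(F_p) - (p + 1)) ^ 2 + #C(F_{p ^ 2}) - (p ^ 2 + 1)) / (2 p)` (where `#C(F_{p ^ 2}) = points₂ p m + 1`), and `0` if
the curve is not smooth modulo `p`. -/
noncomputable def a₂ (p : ℕ) (m : Fin 5 → ℤ) : ℝ :=
  if Smooth p m then
    ((((points₁ p m : ℝ) + 1) - ((p : ℝ) + 1)) ^ 2 + (((points₂ p m : ℝ) + 1) - ((p : ℝ) ^ 2 + 1))) / (2 * p)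
  else 0

/-- The mean of `a_1 ^ i a_2 ^ j` over the characteristic polynomials `1 + a_1 T + a_2 T ^ 2 + a_1 T ^ 3 + T ^ 4` of the matrices
in `USp(4)` (for the pairs `(i, j)` used below). -/
def moment : ℕ → ℕ → ℝ
  | 0, 0 => 1
  | 2, 0 => 1
  | 4, 0 => 3
  | 6, 0 => 14
  | 0, 1 => 1
  | 2, 1 => 2
  | 0, 2 => 2
  | _, _ => 0

open Classical in
/-- The number of the primes `p ≤ x` in `T`. -/
noncomputable def number (T : Set ℕ) (x : ℕ) : ℕ := ((range (x + 1)).filter (fun p => p.Prime ∧ p ∈ T)).card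

open Classical in
/-- For all pairs `(i, j)` with `i + 2 j ≤ 5` or `i ≤ 7`, `j = 0` and all `t ≤ x ^ (δ / 4)`: the sum over the primes `p ≤ x` in `T t`
of `a_1(p) ^ i a_2(p) ^ j` differs from `moment i j` times the number of these primes by at most `x ^ δ` times the square root
of the number of the primes `p ≤ 2 x` in `T t` (or of `1`). -/
def Moments (δ : ℝ) (T : ℕ → Set ℕ) (x : ℕ) (m : Fin 5 → ℤ) : Prop :=
  ∀ i j : ℕ, (i + 2 * j ≤ 5 ∨ (i ≤ 7 ∧ j = 0)) → ∀ t : ℕ, (t : ℝ) ≤ (x : ℝ) ^ (δ / 4) →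
    |∑ p ∈ (range (x + 1)).filter (fun p => p.Prime ∧ p ∈ T t), a₁ p m ^ i * a₂ p m ^ j - moment i j * number (T t) x| ≤
      Real.sqrt (max 1 (number (T t) (2 * x) : ℝ)) * (x : ℝ) ^ δ

lemma moment_eq (i j : ℕ) (h : i + 2 * j ≤ 5 ∨ (i ≤ 7 ∧ j = 0)) : moment i j = Pool.Agent.V11210.G2.mm 2 i j := by
  have hj : j ≤ 2 := by omega
  have hi : i ≤ 7 := by omega
  unfold Pool.Agent.V11210.G2.mm Pool.Agent.Y57.FD.Mom.usp Pool.Agent.Y57.FD.Mom.normal
  interval_cases j <;> interval_cases i <;> first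
    | omega
    | (simp [moment, Nat.doubleFactorial, Nat.even_iff]; done)
    | (simp [moment, Nat.doubleFactorial, Nat.even_iff]; norm_num)

lemma card_affine {F : Type} [Field F] [Fintype F] [DecidableEq F] (hF : ringChar F ≠ 2) (f : F → F) :
    (Nat.card {P : F × F // P.2 ^ 2 = f P.1} : ℝ) = (Fintype.card F : ℝ) + ∑ x : F, (quadraticChar F (f x) : ℝ) := by
  classical
  have h1 : Nat.card {P : F × F // P.2 ^ 2 = f P.1} = ∑ x : F, Nat.card {y : F // y ^ 2 = f x} := by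
    rw [← Nat.card_sigma]
    refine Nat.card_congr ⟨fun P => ⟨P.1.1, ⟨P.1.2, P.2⟩⟩, fun P => ⟨(P.1, P.2.1), P.2.2⟩, fun _ => rfl, fun _ => rfl⟩
  have h2 : ∀ x : F, ((Nat.card {y : F // y ^ 2 = f x} : ℕ) : ℤ) = quadraticChar F (f x) + 1 := by
    intro x
    rw [← quadraticChar_card_sqrts hF (f x)]
    congr 1
    rw [Nat.card_eq_fintype_card, Fintype.card_subtype]
    congr 1
    ext y
    simp
  rw [h1]
  push_cast
  have h3 : ∀ x : F, ((Nat.card {y : F // y ^ 2 = f x} : ℕ) : ℝ) = (quadraticChar F (f x) : ℝ) + 1 := by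
    intro x
    have := h2 x
    exact_mod_cast this
  rw [sum_congr rfl (fun x _ => h3 x), sum_add_distrib, sum_const, card_univ, nsmul_eq_mul, mul_one]
  ring

lemma pol_eq (p : ℕ) [Fact p.Prime] (m : Fin 5 → ℕ) : (Pool.Agent.Y57.FD.HM.pol p (D := 2 * 2 + 1) (fun i => ((m i : ℕ) : ZMod p))) =
    Polynomial.X ^ 5 + ∑ i, Polynomial.C (m i : ZMod p) * Polynomial.X ^ (i : ℕ) := rfl

lemma smooth_iff (p : ℕ) (hp : p.Prime) (m : Fin 5 → ℤ) : Smooth p m ↔ p ≠ 2 ∧
    (Polynomial.X ^ 5 + ∑ i, Polynomial.C (red p m i : ZMod p) * Polynomial.X ^ (i : ℕ)).Separable := by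
  haveI : Fact p.Prime := ⟨hp⟩
  unfold Smooth
  simp only [red_cast p hp.pos m (ZMod p)]

lemma points₁_eq (p : ℕ) [hp : Fact p.Prime] (h2 : p ≠ 2) (m : Fin 5 → ℤ) :
    (points₁ p m : ℝ) = (p : ℝ) + ∑ x : ZMod p, (quadraticChar (ZMod p)
      (Pool.Agent.Y57.FD.Mom.val (ZMod p) (2 * 2 + 1) (fun i => ((red p m i : ℕ) : ZMod p)) x) : ℝ) := by
  unfold points₁
  have e : ∀ i, ((m i : ℤ) : ZMod p) = ((red p m i : ℕ) : ZMod p) := fun i => (red_cast p hp.out.pos m (ZMod p) i).symm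
  simp only [e]
  rw [card_affine (Pool.Agent.V11210.G2.ringChar_zmod p h2) (fun x => x ^ 5 + ∑ i, (red p m i : ZMod p) * x ^ (i : ℕ)), ZMod.card]
  rfl

lemma points₂_eq (p : ℕ) [hp : Fact p.Prime] (h2 : p ≠ 2) (m : Fin 5 → ℤ) :
    (points₂ p m : ℝ) = (p : ℝ) ^ 2 + Pool.Agent.V11210.G2.SG p (D := 2 * 2 + 1) (fun i => ((red p m i : ℕ) : ZMod p)) := by
  classical
  letI : Fintype (GaloisField p 2) := Fintype.ofFinite _
  unfold points₂
  have e : ∀ i, ((m i : ℤ) : GaloisField p 2) = ((red p m i : ℕ) : GaloisField p 2) :=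
    fun i => (red_cast p hp.out.pos m (GaloisField p 2) i).symm
  rw [dif_pos hp.out]
  simp only [e]
  rw [card_affine (Pool.Agent.V11210.G2.charL (ZMod p) (GaloisField p 2) (Pool.Agent.V11210.G2.ringChar_zmod p h2))
    (fun x : GaloisField p 2 => x ^ 5 + ∑ i, (red p m i : GaloisField p 2) * x ^ (i : ℕ)), ← Nat.card_eq_fintype_card,
    GaloisField.card p 2 (by norm_num)]
  push_cast
  congr 1

lemma a₁_eq (p : ℕ) (hp : p.Prime) (m : Fin 5 → ℤ) : a₁ p m = Pool.Agent.Y57.FD.HM.tr 2 p (red p m) := by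
  classical
  haveI : Fact p.Prime := ⟨hp⟩
  unfold a₁ Pool.Agent.Y57.FD.HM.tr
  by_cases h2 : p = 2
  · rw [if_neg (fun h => h.1 h2), dif_neg (fun h => h.2 h2)]
  · rw [dif_pos ⟨hp, h2⟩]
    by_cases h3 : (Pool.Agent.Y57.FD.HM.pol p (D := 2 * 2 + 1) (fun i => ((red p m i : ℕ) : ZMod p))).Separable
    · have h4 : Smooth p m := (smooth_iff p hp m).2 ⟨h2, by rw [pol_eq] at h3; exact h3⟩
      rw [if_pos h4, if_pos h3, points₁_eq p h2, ZMod.card]
      congr 1
      ring
    · have h4 : ¬ Smooth p m := fun h => h3 (by rw [pol_eq]; exact ((smooth_iff p hp m).1 h).2)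
      rw [if_neg h4, if_neg h3]

lemma a₂_eq (p : ℕ) (hp : p.Prime) (m : Fin 5 → ℤ) : a₂ p m = Pool.Agent.V11210.G2.A2 2 p (red p m) := by
  classical
  haveI : Fact p.Prime := ⟨hp⟩
  have hp0 : (0 : ℝ) < p := by exact_mod_cast hp.pos
  have e1 := a₁_eq p hp m
  unfold a₂ Pool.Agent.V11210.G2.A2
  by_cases h2 : p = 2
  · rw [if_neg (fun h => h.1 h2), dif_neg (fun h => h.2 h2)]
  · rw [dif_pos ⟨hp, h2⟩]
    by_cases h3 : (Pool.Agent.Y57.FD.HM.pol p (D := 2 * 2 + 1) (fun i => ((red p m i : ℕ) : ZMod p))).Separable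
    · have h4 : Smooth p m := (smooth_iff p hp m).2 ⟨h2, by rw [pol_eq] at h3; exact h3⟩
      rw [if_pos h4, if_pos h3, points₂_eq p h2, ← e1]
      unfold a₁
      rw [if_pos h4, div_pow, Real.sq_sqrt hp0.le]
      field_simp
      ring
    · have h4 : ¬ Smooth p m := fun h => h3 (by rw [pol_eq]; exact ((smooth_iff p hp m).1 h).2)
      rw [if_neg h4, if_neg h3]

lemma number_eq (T : Set ℕ) (x : ℕ) : number T x = cntT T x := by
  classical
  unfold number cntT
  congr 1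
  ext p
  rw [mem_filter, mem_filter, mem_range, Pool.Agent.R459.Eq.mem_pri]
  constructor
  · rintro ⟨h1, h2, h3⟩
    exact ⟨⟨by omega, h2⟩, h3⟩
  · rintro ⟨⟨h1, h2⟩, h3⟩
    exact ⟨by omega, h2, h3⟩

lemma good_moments (δ : ℝ) (T : ℕ → Set ℕ) (x : ℕ) (m : Fin 5 → ℤ)
    (h : GoodQ (D := 5) δ T adm2 (fun ij p m => Pool.Agent.Y57.FD.HM.tr 2 p (red p m) ^ ij.1 *
      Pool.Agent.V11210.G2.A2 2 p (red p m) ^ ij.2) (fun ij _ => Pool.Agent.V11210.G2.mm 2 ij.1 ij.2) x m) : Moments δ T x m := by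
  classical
  intro i j hij t ht
  have h1 := h (i, j) ((mem_adm2 (i, j)).2 hij) t ht
  rw [number_eq, number_eq]
  refine le_trans (le_of_eq ?_) h1
  congr 1
  have e : (range (x + 1)).filter (fun p => p.Prime ∧ p ∈ T t) =
      (Pool.Agent.R459.Eq.pri x).filter (fun p => p ∈ T t) := by
    ext p
    rw [mem_filter, mem_filter, mem_range, Pool.Agent.R459.Eq.mem_pri]
    constructor
    · rintro ⟨h1, h2, h3⟩
      exact ⟨⟨by omega, h2⟩, h3⟩
    · rintro ⟨⟨h1, h2⟩, h3⟩
      exact ⟨by omega, h2, h3⟩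
  rw [← sum_filter, sum_sub_distrib, sum_const, nsmul_eq_mul, e, moment_eq i j hij, mul_comm (Pool.Agent.V11210.G2.mm 2 i j)]
  congr 1
  · apply sum_congr rfl
    intro p hp
    have hpp := (Pool.Agent.R459.Eq.mem_pri.1 (mem_filter.1 hp).1).2
    rw [a₁_eq p hpp, a₂_eq p hpp]

open Classical in
/-- Let `0 < δ ≤ 1`. Let `b ≥ 2`, `L ≥ 1`, `0 < η ≤ 1` and `T₀` be fixed. There is `W` such that for all `κ i ≠ 0` and all
sufficiently large `X` the following holds for all `k i`, all probabilities `p i` on the words of `k i` digits in which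
blocks of `L` digits can be exchanged (`Exchangeable b L η T₀ (k i) (p i)`), all integers `c i` and ALL sequences `T j` of
pairwise disjoint sets of primes.

If the coefficients `m i = c i + κ i v i` are independent and `v i` is random with the distribution `p i`, then with a
probability of at least `1 - (∑ (k i) ^ T₀) X ^ (- δ / 8)`, the Jacobian of the curve `Y ^ 2 = X ^ 5 + m 4 X ^ 4 + ... + m 0` of genus `2` has the following property for ALL `x ≥ X`
with `x ^ W ≤ b ^ (k i)` for all `i`: for all pairs `(i, j)` with `i + 2 j ≤ 5` or `i ≤ 7`, `j = 0` the mean of `a_1(p) ^ i a_2(p) ^ j` over the primes `p ≤ x` in `T t` is the mean of `a_1 ^ i a_2 ^ j` over `USp(4)`, up to an error of the sums of `x ^ δ` times the square root of the number of the primes `p ≤ 2 x` in `T t`, for ALL `t ≤ x ^ (δ / 4)`. -/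
theorem result  (b L : ℕ) (hb : 2 ≤ b) (hL : 1 ≤ L) (η : ℝ) (hη0 : 0 < η) (hη1 : η ≤ 1) (T₀ : ℕ) (δ : ℝ) (hδ : 0 < δ)
    (hδ1 : δ ≤ 1) : ∃ W : ℕ, 1 ≤ W ∧ ∀ κ : Fin 5 → ℤ, (∀ i, κ i ≠ 0) → ∃ X₀ : ℕ, ∀ X : ℕ, X₀ ≤ X →
    ∀ (k : Fin 5 → ℕ) (p : Fin 5 → ℕ → ℝ), (∀ i, Exchangeable b L η T₀ (k i) (p i)) → ∀ (c : Fin 5 → ℤ) (T : ℕ → Set ℕ),
    (∀ p j j', p ∈ T j → p ∈ T j' → j = j') →
    ∑ v ∈ Fintype.piFinset (fun i => range (b ^ k i)), (if ∀ x : ℕ, X ≤ x → (∀ i, x ^ W ≤ b ^ k i) →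
      Moments δ T x (fun i => c i + κ i * v i) then 0 else ∏ i, p i (v i)) ≤
      (∑ i, (k i : ℝ) ^ T₀) * (X : ℝ) ^ (-(δ / 8)) := by
  obtain ⟨W, hW, H⟩ := multi_flex g2_data δ hδ hδ1 b L hb hL η hη0 hη1 T₀
  refine ⟨W, hW, fun κ hκ => ?_⟩
  obtain ⟨X₀, J⟩ := H κ hκ
  refine ⟨X₀, fun X hX k p hp c T hT => ?_⟩
  refine le_trans (sum_le_sum fun v hv => ?_) (J X hX k p (fun i => flex_of (hp i)) c T hT)
  have h0 : 0 ≤ ∏ i, p i (v i) := prod_nonneg fun i _ => (hp i).nonneg _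
  by_cases h1 : ∀ x : ℕ, X ≤ x → (∀ i, x ^ W ≤ b ^ k i) → Moments δ T x (fun i => c i + κ i * v i)
  · rw [if_pos h1]
    split_ifs
    · exact le_rfl
    · exact h0
  · rw [if_neg h1, if_neg (fun hcon => h1 fun x hXx hx => good_moments δ T x _ (hcon x hXx hx))]

end Pool.Agent.Results.MP_6dc561_nt.ExchangeableCoefficients
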