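import Pool.Agent.N794.CG.Gen2
import Pool.Agent.N384.MQ.Gen

/-!
# Joint moments of the coefficients `a_1(p)` and `a_2(p)` of the normalized Euler factors of the Jacobians of curves of genus `2` with coefficients from families of residues with small Fourier coefficients

The curves are `Y ^ 2 = X ^ 5 + m 4 X ^ 4 + ... + m 0`. The main terms are the joint moments of the coefficients `a_1`, `a_2` of the
characteristic polynomial of a random matrix in `USp(4)`.

From Mathlib: `ZMod.stdAddChar`: the additive character `j ↦ exp (2 π i j / q)` of the integers modulo `q`; `ZMod.val`: the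
least residue.

Method: a family of residues modulo `q` with small Fourier coefficients has small exponential sums at all real
frequencies which are not close to integers (helper384, `Pool.Agent.N384.MQ`; the examples are from there); the passage to
sums over primes of functions of residues is from the starting library (`Pool.Agent.R459.Eq`) in the case of one
variable; here an induction on the number of the coefficients. The local means are from the starting library (`Pool.Agent.V11210.G2`, `Pool.Agent.Y57.FD`).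
-/

set_option autoImplicit false

namespace Pool.Agent.Results.MP_6dc561_nt.ResidueCoefficients

open Finset Filter Pool.Agent.N794.CG

/-- The Fourier coefficients of the residues `y i`, `i ∈ s`, modulo `q` at the nonzero frequencies are at most
`η` times the number of the residues: `|∑ i ∈ s, e(h y_i / q)| ≤ η |s|` for all `h ≠ 0` modulo `q`. -/
def Flat {ι : Type} (q : ℕ) [NeZero q] (η : ℝ) (s : Finset ι) (y : ι → ZMod q) : Prop :=
  ∀ h : ZMod q, h ≠ 0 → ‖∑ i ∈ s, (ZMod.stdAddChar (h * y i) : ℂ)‖ ≤ η * s.card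

/-- The number of the solutions of `Y ^ 2 = X ^ 5 + m 4 X ^ 4 + ... + m 1 X + m 0` in the field with `p` elements. -/
noncomputable def points₁ (p : ℕ) (m : Fin 5 → ℤ) : ℕ :=
  Nat.card {P : ZMod p × ZMod p // P.2 ^ 2 = P.1 ^ 5 + ∑ i, (m i : ZMod p) * P.1 ^ (i : ℕ)}

open Classical in
/-- The number of the solutions of `Y ^ 2 = X ^ 5 + m 4 X ^ 4 + ... + m 1 X + m 0` in the field with `p ^ 2` elements. -/
noncomputable def points₂ (p : ℕ) (m : Fin 5 → ℤ) : ℕ :=
  if h : p.Prime then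
    haveI : Fact p.Prime := ⟨h⟩
    Nat.card {P : GaloisField p 2 × GaloisField p 2 // P.2 ^ 2 = P.1 ^ 5 + ∑ i, (m i : GaloisField p 2) * P.1 ^ (i : ℕ)}
  else 0

/-- `p` is odd and `X ^ 5 + m 4 X ^ 4 + ... + m 0` is separable modulo `p`, so that the curve of genus `2` with this equation is
smooth modulo `p`. -/
def Smooth (p : ℕ) (m : Fin 5 → ℤ) : Prop :=
  p ≠ 2 ∧ (Polynomial.X ^ 5 + ∑ i, Polynomial.C (m i : ZMod p) * Polynomial.X ^ (i : ℕ)).Separable

open Classical in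
/-- The coefficient `a_1` of the normalized Euler factor `L_p(T / p ^ (1 / 2)) = 1 + a_1 T + a_2 T ^ 2 + a_1 T ^ 3 + T ^ 4` of the
Jacobian of the curve `C : Y ^ 2 = X ^ 5 + m 4 X ^ 4 + ... + m 0`: the number `#C(F_p) - (p + 1)` divided by `p ^ (1 / 2)` (there is
one point at infinity, so that `#C(F_p) = points₁ p m + 1`), and `0` if the curve is not smooth modulo `p`. -/
noncomputable def a₁ (p : ℕ) (m : Fin 5 → ℤ) : ℝ :=
  if Smooth p m then (((points₁ p m : ℝ) + 1) - ((p : ℝ) + 1)) / Real.sqrt p else 0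

open Classical in
/-- The coefficient `a_2` of the normalized Euler factor `L_p(T / p ^ (1 / 2)) = 1 + a_1 T + a_2 T ^ 2 + a_1 T ^ 3 + T ^ 4`:
the number `((#C(F_p) - (p + 1)) ^ 2 + #C(F_{p ^ 2}) - (p ^ 2 + 1)) / (2 p)` (where `#C(F_{p ^ 2}) = points₂ p m + 1`), and `0` if
the curve is not smooth modulo `p`. -/
noncomputable def a₂ (p : ℕ) (m : Fin 5 → ℤ) : ℝ :=
  if Smooth p m then
    ((((points₁ p m : ℝ) + 1) - ((p : ℝ) + 1)) ^ 2 + (((points₂ p m : ℝ) + 1) - ((p : ℝ) ^ 2 + 1))) / (2 * p)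
  else 0

/-- The mean of `a_1 ^ i a_2 ^ j` over the characteristic polynomials `1 + a_1 T + a_2 T ^ 2 + a_1 T ^ 3 + T ^ 4` of the matrices
in `USp(4)` (for the pairs `(i, j)` used below). -/
def moment : ℕ → ℕ → ℝ
  | 0, 0 => 1
  | 2, 0 => 1
  | 4, 0 => 3
  | 6, 0 => 14
  | 0, 1 => 1
  | 2, 1 => 2
  | 0, 2 => 2
  | _, _ => 0

open Classical in
/-- The number of the primes `p ≤ x` in `T`. -/
noncomputable def number (T : Set ℕ) (x : ℕ) : ℕ := ((range (x + 1)).filter (fun p => p.Prime ∧ p ∈ T)).card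

open Classical in
/-- For all pairs `(i, j)` with `i + 2 j ≤ 5` or `i ≤ 7`, `j = 0` and all `t ≤ x ^ (δ / 4)`: the sum over the primes `p ≤ x` in `T t`
of `a_1(p) ^ i a_2(p) ^ j` differs from `moment i j` times the number of these primes by at most `x ^ δ` times the square root
of the number of the primes `p ≤ 2 x` in `T t` (or of `1`). -/
def Moments (δ : ℝ) (T : ℕ → Set ℕ) (x : ℕ) (m : Fin 5 → ℤ) : Prop :=
  ∀ i j : ℕ, (i + 2 * j ≤ 5 ∨ (i ≤ 7 ∧ j = 0)) → ∀ t : ℕ, (t : ℝ) ≤ (x : ℝ) ^ (δ / 4) →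
    |∑ p ∈ (range (x + 1)).filter (fun p => p.Prime ∧ p ∈ T t), a₁ p m ^ i * a₂ p m ^ j - moment i j * number (T t) x| ≤
      Real.sqrt (max 1 (number (T t) (2 * x) : ℝ)) * (x : ℝ) ^ δ

lemma moment_eq (i j : ℕ) (h : i + 2 * j ≤ 5 ∨ (i ≤ 7 ∧ j = 0)) : moment i j = Pool.Agent.V11210.G2.mm 2 i j := by
  have hj : j ≤ 2 := by omega
  have hi : i ≤ 7 := by omega
  unfold Pool.Agent.V11210.G2.mm Pool.Agent.Y57.FD.Mom.usp Pool.Agent.Y57.FD.Mom.normal
  interval_cases j <;> interval_cases i <;> first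
    | omega
    | (simp [moment, Nat.doubleFactorial, Nat.even_iff]; done)
    | (simp [moment, Nat.doubleFactorial, Nat.even_iff]; norm_num)

lemma card_affine {F : Type} [Field F] [Fintype F] [DecidableEq F] (hF : ringChar F ≠ 2) (f : F → F) :
    (Nat.card {P : F × F // P.2 ^ 2 = f P.1} : ℝ) = (Fintype.card F : ℝ) + ∑ x : F, (quadraticChar F (f x) : ℝ) := by
  classical
  have h1 : Nat.card {P : F × F // P.2 ^ 2 = f P.1} = ∑ x : F, Nat.card {y : F // y ^ 2 = f x} := by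
    rw [← Nat.card_sigma]
    refine Nat.card_congr ⟨fun P => ⟨P.1.1, ⟨P.1.2, P.2⟩⟩, fun P => ⟨(P.1, P.2.1), P.2.2⟩, fun _ => rfl, fun _ => rfl⟩
  have h2 : ∀ x : F, ((Nat.card {y : F // y ^ 2 = f x} : ℕ) : ℤ) = quadraticChar F (f x) + 1 := by
    intro x
    rw [← quadraticChar_card_sqrts hF (f x)]
    congr 1
    rw [Nat.card_eq_fintype_card, Fintype.card_subtype]
    congr 1
    ext y
    simp
  rw [h1]
  push_cast
  have h3 : ∀ x : F, ((Nat.card {y : F // y ^ 2 = f x} : ℕ) : ℝ) = (quadraticChar F (f x) : ℝ) + 1 := by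
    intro x
    have := h2 x
    exact_mod_cast this
  rw [sum_congr rfl (fun x _ => h3 x), sum_add_distrib, sum_const, card_univ, nsmul_eq_mul, mul_one]
  ring

lemma pol_eq (p : ℕ) [Fact p.Prime] (m : Fin 5 → ℕ) : (Pool.Agent.Y57.FD.HM.pol p (D := 2 * 2 + 1) (fun i => ((m i : ℕ) : ZMod p))) =
    Polynomial.X ^ 5 + ∑ i, Polynomial.C (m i : ZMod p) * Polynomial.X ^ (i : ℕ) := rfl

lemma smooth_iff (p : ℕ) (hp : p.Prime) (m : Fin 5 → ℤ) : Smooth p m ↔ p ≠ 2 ∧
    (Polynomial.X ^ 5 + ∑ i, Polynomial.C (red p m i : ZMod p) * Polynomial.X ^ (i : ℕ)).Separable := by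
  haveI : Fact p.Prime := ⟨hp⟩
  unfold Smooth
  simp only [red_cast p hp.pos m (ZMod p)]

lemma points₁_eq (p : ℕ) [hp : Fact p.Prime] (h2 : p ≠ 2) (m : Fin 5 → ℤ) :
    (points₁ p m : ℝ) = (p : ℝ) + ∑ x : ZMod p, (quadraticChar (ZMod p)
      (Pool.Agent.Y57.FD.Mom.val (ZMod p) (2 * 2 + 1) (fun i => ((red p m i : ℕ) : ZMod p)) x) : ℝ) := by
  unfold points₁
  have e : ∀ i, ((m i : ℤ) : ZMod p) = ((red p m i : ℕ) : ZMod p) := fun i => (red_cast p hp.out.pos m (ZMod p) i).symm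
  simp only [e]
  rw [card_affine (Pool.Agent.V11210.G2.ringChar_zmod p h2) (fun x => x ^ 5 + ∑ i, (red p m i : ZMod p) * x ^ (i : ℕ)), ZMod.card]
  rfl

lemma points₂_eq (p : ℕ) [hp : Fact p.Prime] (h2 : p ≠ 2) (m : Fin 5 → ℤ) :
    (points₂ p m : ℝ) = (p : ℝ) ^ 2 + Pool.Agent.V11210.G2.SG p (D := 2 * 2 + 1) (fun i => ((red p m i : ℕ) : ZMod p)) := by
  classical
  letI : Fintype (GaloisField p 2) := Fintype.ofFinite _
  unfold points₂
  have e : ∀ i, ((m i : ℤ) : GaloisField p 2) = ((red p m i : ℕ) : GaloisField p 2) :=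
    fun i => (red_cast p hp.out.pos m (GaloisField p 2) i).symm
  rw [dif_pos hp.out]
  simp only [e]
  rw [card_affine (Pool.Agent.V11210.G2.charL (ZMod p) (GaloisField p 2) (Pool.Agent.V11210.G2.ringChar_zmod p h2))
    (fun x : GaloisField p 2 => x ^ 5 + ∑ i, (red p m i : GaloisField p 2) * x ^ (i : ℕ)), ← Nat.card_eq_fintype_card,
    GaloisField.card p 2 (by norm_num)]
  push_cast
  congr 1

lemma a₁_eq (p : ℕ) (hp : p.Prime) (m : Fin 5 → ℤ) : a₁ p m = Pool.Agent.Y57.FD.HM.tr 2 p (red p m) := by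
  classical
  haveI : Fact p.Prime := ⟨hp⟩
  unfold a₁ Pool.Agent.Y57.FD.HM.tr
  by_cases h2 : p = 2
  · rw [if_neg (fun h => h.1 h2), dif_neg (fun h => h.2 h2)]
  · rw [dif_pos ⟨hp, h2⟩]
    by_cases h3 : (Pool.Agent.Y57.FD.HM.pol p (D := 2 * 2 + 1) (fun i => ((red p m i : ℕ) : ZMod p))).Separable
    · have h4 : Smooth p m := (smooth_iff p hp m).2 ⟨h2, by rw [pol_eq] at h3; exact h3⟩
      rw [if_pos h4, if_pos h3, points₁_eq p h2, ZMod.card]
      congr 1
      ring
    · have h4 : ¬ Smooth p m := fun h => h3 (by rw [pol_eq]; exact ((smooth_iff p hp m).1 h).2)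
      rw [if_neg h4, if_neg h3]

lemma a₂_eq (p : ℕ) (hp : p.Prime) (m : Fin 5 → ℤ) : a₂ p m = Pool.Agent.V11210.G2.A2 2 p (red p m) := by
  classical
  haveI : Fact p.Prime := ⟨hp⟩
  have hp0 : (0 : ℝ) < p := by exact_mod_cast hp.pos
  have e1 := a₁_eq p hp m
  unfold a₂ Pool.Agent.V11210.G2.A2
  by_cases h2 : p = 2
  · rw [if_neg (fun h => h.1 h2), dif_neg (fun h => h.2 h2)]
  · rw [dif_pos ⟨hp, h2⟩]
    by_cases h3 : (Pool.Agent.Y57.FD.HM.pol p (D := 2 * 2 + 1) (fun i => ((red p m i : ℕ) : ZMod p))).Separable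
    · have h4 : Smooth p m := (smooth_iff p hp m).2 ⟨h2, by rw [pol_eq] at h3; exact h3⟩
      rw [if_pos h4, if_pos h3, points₂_eq p h2, ← e1]
      unfold a₁
      rw [if_pos h4, div_pow, Real.sq_sqrt hp0.le]
      field_simp
      ring
    · have h4 : ¬ Smooth p m := fun h => h3 (by rw [pol_eq]; exact ((smooth_iff p hp m).1 h).2)
      rw [if_neg h4, if_neg h3]

lemma number_eq (T : Set ℕ) (x : ℕ) : number T x = cntT T x := by
  classical
  unfold number cntT
  congr 1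
  ext p
  rw [mem_filter, mem_filter, mem_range, Pool.Agent.R459.Eq.mem_pri]
  constructor
  · rintro ⟨h1, h2, h3⟩
    exact ⟨⟨by omega, h2⟩, h3⟩
  · rintro ⟨⟨h1, h2⟩, h3⟩
    exact ⟨by omega, h2, h3⟩

lemma good_moments (δ : ℝ) (T : ℕ → Set ℕ) (x : ℕ) (m : Fin 5 → ℤ)
    (h : GoodQ (D := 5) δ T adm2 (fun ij p m => Pool.Agent.Y57.FD.HM.tr 2 p (red p m) ^ ij.1 *
      Pool.Agent.V11210.G2.A2 2 p (red p m) ^ ij.2) (fun ij _ => Pool.Agent.V11210.G2.mm 2 ij.1 ij.2) x m) : Moments δ T x m := by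
  classical
  intro i j hij t ht
  have h1 := h (i, j) ((mem_adm2 (i, j)).2 hij) t ht
  rw [number_eq, number_eq]
  refine le_trans (le_of_eq ?_) h1
  congr 1
  have e : (range (x + 1)).filter (fun p => p.Prime ∧ p ∈ T t) =
      (Pool.Agent.R459.Eq.pri x).filter (fun p => p ∈ T t) := by
    ext p
    rw [mem_filter, mem_filter, mem_range, Pool.Agent.R459.Eq.mem_pri]
    constructor
    · rintro ⟨h1, h2, h3⟩
      exact ⟨⟨by omega, h2⟩, h3⟩
    · rintro ⟨⟨h1, h2⟩, h3⟩
      exact ⟨by omega, h2, h3⟩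
  rw [← sum_filter, sum_sub_distrib, sum_const, nsmul_eq_mul, e, moment_eq i j hij, mul_comm (Pool.Agent.V11210.G2.mm 2 i j)]
  congr 1
  · apply sum_congr rfl
    intro p hp
    have hpp := (Pool.Agent.R459.Eq.mem_pri.1 (mem_filter.1 hp).1).2
    rw [a₁_eq p hpp, a₂_eq p hpp]

open Classical in
/-- **(1)** Let `0 < δ ≤ 1`. There is `W` such that for all `κ i ≠ 0` and all sufficiently large `X` the following holds.
For every `i` let `y i z`, `z ∈ u i`, be any finite family of residues modulo any `q i` whose Fourier coefficients at the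
nonzero frequencies are at most `|u i| / (Z (42 + 3 log (q i)))`, where `0 < Z ≤ q i`, let `c i` be any integers, and let
`T j` be ANY sequence of pairwise disjoint sets of primes.

If the coefficients `m i = c i + κ i y_i` run independently through these families (with the least residues `0 ≤ y_i < q i`)
then with the exception of at most a proportion `n X ^ (- δ / 8)` of the vectors, where `n` is the number of the
coefficients, the Jacobian of the curve `Y ^ 2 = X ^ 5 + m 4 X ^ 4 + ... + m 0` of genus `2` has the following property for ALL `x ≥ X` with `x ^ W ≤ Z`: for all pairs `(i, j)` with `i + 2 j ≤ 5` or `i ≤ 7`, `j = 0` the mean of `a_1(p) ^ i a_2(p) ^ j` over the primes `p ≤ x` in `T t` is the mean of `a_1 ^ i a_2 ^ j` over `USp(4)`, up to an error of the sums of `x ^ δ` times the square root of the number of the primes `p ≤ 2 x` in `T t`, for ALL `t ≤ x ^ (δ / 4)`.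

**(2)**, **(3)** Examples. All the Fourier coefficients at nonzero frequencies are at most `|s| / K` for the following families
of residues modulo primes `p` (all large primes in (2)), for ALL `K ≥ 1`:
* the quotients `j / r` of the integers `0 ≤ j < S` by the primes `r ≤ R`, if `K log ^ 4 p ≤ R < p` and `R ^ 2 ≤ S`; thus
  (1) with `Z = log ^ B p` applies to such explicit sets with only `log ^ (3 B + 20) p` members;
* the cosets of all subgroups of the multiplicative group of an order of at least `5 p ^ (3/8) K ^ 3`;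
* the residues `a b + g(a) + k(b)`, `a ∈ A`, `b ∈ B`, for arbitrary sets with `|A| |B| ≥ p K ^ 2` and arbitrary
  functions `g` and `k`;
* the values `f(n)`, `0 ≤ n < x`, of all integer polynomials of degree `d` whose leading coefficient is not divisible by
  `p`, if `p ≥ C K ^ C` and `x ^ d ≥ C K ^ C p`, where `C` depends on `d`.
In the last three examples `K`, and thus `Z`, can be a power of `p`. -/
theorem result :
    (∀  (δ : ℝ), 0 < δ → δ ≤ 1 → ∃ W : ℕ, 1 ≤ W ∧ ∀ κ : Fin 5 → ℤ, (∀ i, κ i ≠ 0) → ∃ X₀ : ℕ, ∀ X : ℕ, X₀ ≤ X →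
      ∀ (ι : Fin 5 → Type) (q : Fin 5 → ℕ) [∀ i, NeZero (q i)] (u : ∀ i, Finset (ι i)) (y : ∀ i, ι i → ZMod (q i)) (Z : ℝ),
      0 < Z → (∀ i, Z ≤ q i) → (∀ i, Flat (q i) (1 / (Z * (42 + 3 * Real.log (q i)))) (u i) (y i)) →
      ∀ (c : Fin 5 → ℤ) (T : ℕ → Set ℕ), (∀ p j j', p ∈ T j → p ∈ T j' → j = j') →
      (((Fintype.piFinset u).filter (fun v => ¬ ∀ x : ℕ, X ≤ x → (x : ℝ) ^ W ≤ Z →
        Moments δ T x (fun i => c i + κ i * ((y i (v i)).val : ℕ)))).card : ℝ) ≤
        (5 * (X : ℝ) ^ (-(δ / 8))) * ∏ i, ((u i).card : ℝ)) ∧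
    (∃ P₀ : ℕ, ∀ p : ℕ, P₀ ≤ p → ∀ [Fact p.Prime] (K : ℝ), 1 ≤ K →
      (∀ R S : ℕ, K * Real.log p ^ 4 ≤ R → R < p → R ^ 2 ≤ S →
        Flat p (1 / K) (((Icc 1 R).filter Nat.Prime) ×ˢ range S)
          (fun z => ((z.2 : ℕ) : ZMod p) * ((z.1 : ℕ) : ZMod p)⁻¹)) ∧
      (∀ (H : Subgroup (ZMod p)ˣ) (s : Finset (ZMod p)ˣ), (∀ u, u ∈ s ↔ u ∈ H) →
        5 * (p : ℝ) ^ (3 / 8 : ℝ) * K ^ 3 ≤ s.card → ∀ x : ZMod p, x ≠ 0 → Flat p (1 / K) s (fun u => x * (u : ZMod p))) ∧
      (∀ (A B : Finset (ZMod p)) (g k : ZMod p → ZMod p), (p : ℝ) * K ^ 2 ≤ A.card * B.card →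
        Flat p (1 / K) (A ×ˢ B) (fun z => z.1 * z.2 + g z.1 + k z.2))) ∧
    (∀ d : ℕ, 1 ≤ d → ∃ C : ℕ, ∀ p : ℕ, ∀ [Fact p.Prime] (f : Polynomial ℤ), f.natDegree = d →
      ¬ (p : ℤ) ∣ f.leadingCoeff → ∀ K : ℝ, 1 ≤ K → C * K ^ C ≤ p → ∀ x : ℕ, C * K ^ C * p ≤ (x : ℝ) ^ d →
      Flat p (1 / K) (range x) (fun n => ((f.eval (n : ℤ) : ℤ) : ZMod p))) := by
  refine ⟨?_, ?_, fun d hd => ?_⟩
  · intro δ hδ hδ1
    obtain ⟨W, hW, H⟩ := multi_res g2_data δ hδ hδ1
    refine ⟨W, hW, fun κ hκ => ?_⟩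
    obtain ⟨X₀, J⟩ := H κ hκ
    refine ⟨X₀, fun X hX ι q _ u y Z hZ hZq hfl c T hT => ?_⟩
    refine le_trans (Nat.cast_le.2 (card_le_card fun v hv => ?_)) ((J X hX ι q u y Z hZ hZq hfl c T hT).trans (le_of_eq ?_))
    · rw [mem_filter] at hv ⊢
      exact ⟨hv.1, fun hcon => hv.2 fun x hXx hx => good_moments δ T x _ (hcon x hXx hx)⟩
    · push_cast
      ring
  · obtain ⟨P₀, h0⟩ := Pool.Agent.N384.MQ.flatK_quot
    exact ⟨P₀, fun p hp _ K hK => ⟨fun R S => h0 p hp K hK R S,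
      fun H s hs hc x hx => Pool.Agent.N384.MQ.flatK_coset p H s hs K hK hc x hx,
      fun A B g k hAB => Pool.Agent.N384.MQ.flatK_prod p A B g k K hK hAB⟩⟩
  · exact Pool.Agent.N384.MQ.flatK_poly d hd

end Pool.Agent.Results.MP_6dc561_nt.ResidueCoefficients
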