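import Pool.Agent.N647.TS.GenT
import Pool.Agent.Results.MP_6dc561_nt.GenusTwoJointMoments

/-!
# Joint moments of the coefficients of the normalised Euler factors at `s` consecutive primes, for the Jacobians of almost all
curves of genus `2` whose coefficients are the values at the same integer, or prime, of generalised polynomials

The curves are `Y ^ 2 = X ^ 5 + m_4 X ^ 4 + ... + m_0` with `m_l = ⌊P_l(t)⌋`, where the `P_l` are five finite sums of powers with real
exponents; only `N` of the about `N ^ (c_0 + ... + c_4)` curves of the corresponding box occur for `t ≤ N`.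

Method: by exponential sums the vectors of the integer parts `⌊P_l(t)⌋` are uniformly distributed modulo all moduli up to a power of
`N`, over the integers and over the primes (`Pool.Agent.N666.TM.fl_well`); high moments of sums of local functions over such families
(`Pool.Agent.N647.TS`); the local means are those of the starting result `GenusTwoJointMoments`.
-/

set_option autoImplicit false

namespace Pool.Agent.Results.MP_6dc561_nt.ThinSequences

open Finset
open Pool.Agent.Results.MP_6dc561_nt.GenusTwoJointMoments (a₁ a₂ moment)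

/-- `c` is the largest exponent of the generalised polynomial `∑ a x t ^ x`, `x ∈ F`; it is positive and not an integer and has a
positive coefficient. -/
def Admissible (F : Finset ℝ) (a : ℝ → ℝ) (c : ℝ) : Prop :=
  c ∈ F ∧ (∀ x ∈ F, x ≤ c) ∧ 0 < c ∧ (∀ m : ℕ, c ≠ m) ∧ 0 < a c

/-- The integer part `⌊P_l(t)⌋` of the value of the generalised polynomial number `l` (and `0` if the value is negative, which is
the case for finitely many `t` only). -/
noncomputable def value (F : Fin 5 → Finset ℝ) (a : Fin 5 → ℝ → ℝ) (t : ℕ) (l : Fin 5) : ℕ :=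
  ⌊∑ x ∈ F l, a l x * (t : ℝ) ^ x⌋₊

/-- For all weights in `W` and all pairs `(i e, j e)`, `e < s`, with `i e + 2 j e ≤ 5` or `i e ≤ 7`, `j e = 0` the weighted sum of
the products `∏ a_1(p_(k+e)) ^ (i e) a_2(p_(k+e)) ^ (j e)` over the first `n` primes `p_0 = 2, ..., p_(n-1)` differs
from its expected value (the product of the moments `moment (i e) (j e)` of `a_1`, `a_2` for a random matrix in `USp(4)`,
times `∑ w k`) by at most `(max 1 (∑ w k ^ 2)) ^ (1 / 2) n ^ δ`. -/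
def Moments (s : ℕ) (δ : ℝ) (W : Set (ℕ → ℝ)) (n : ℕ) (m : Fin 5 → ℕ) : Prop :=
  ∀ w ∈ W, ∀ i j : Fin s → ℕ, (∀ e, i e + 2 * j e ≤ 5 ∨ (i e ≤ 7 ∧ j e = 0)) →
    |∑ k ∈ range n, w k * ∏ e : Fin s, (a₁ (Nat.nth Nat.Prime (k + e)) m ^ i e * a₂ (Nat.nth Nat.Prime (k + e)) m ^ j e) -
      (∏ e : Fin s, moment (i e) (j e)) * ∑ k ∈ range n, w k| ≤ Real.sqrt (max 1 (∑ k ∈ range n, w k ^ 2)) * (n : ℝ) ^ δ

open Classical in
/-- Let five generalised polynomials `P_l(t) = ∑ a l x t ^ x` with distinct leading exponents which are positive and not integers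
and have positive coefficients be given (for example `t ^ (l + √2)`), and `s ≥ 1`, `δ > 0`, `A, B ≥ 0`. There are `κ > 0` and `y₀`
such that for all `y ≥ y₀` and all `N` the following holds.

Let for every `n` an arbitrary set `W n` of at most `n ^ B` weights `w : ℕ → [-1, 1]` be given. Then for all the integers `t` in
`(N, 2 N]` with at most `N / y ^ A` exceptions, and for all the primes `t` in `(N, 2 N]` with the exception of at most a
proportion `1 / y ^ A` of them, the Jacobian of the curve `Y ^ 2 = X ^ 5 + ⌊P_4(t)⌋ X ^ 4 + ... + ⌊P_0(t)⌋` of genus `2`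
has the following property: for all `n` with `y ≤ n ≤ N ^ κ` and all weights `w ∈ W n` the joint moments of the coefficients `a_1`,
`a_2` of the normalised Euler factors at `s` consecutive primes `p_k, ..., p_(k+s-1)`, weighted with `w k` for `k < n`, are
those of `s` independent random matrices in `USp(4)`, up to an error `(max 1 (∑ w k ^ 2)) ^ (1 / 2) n ^ δ`. -/
theorem result (s : ℕ) (hs : 1 ≤ s) (F : Fin 5 → Finset ℝ) (a : Fin 5 → ℝ → ℝ) (c : Fin 5 → ℝ)
    (h : ∀ l, Admissible (F l) (a l) (c l)) (hc : Function.Injective c) (δ : ℝ) (hδ : 0 < δ) (A B : ℕ) :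
    ∃ κ : ℝ, 0 < κ ∧ ∃ y₀ : ℕ, ∀ y N : ℕ, y₀ ≤ y →
    ∀ W : ℕ → Set (ℕ → ℝ), (∀ n, (W n).Finite ∧ (W n).ncard ≤ n ^ B) → (∀ n, ∀ w ∈ W n, ∀ k, |w k| ≤ 1) →
      (((Ioc N (2 * N)).filter fun t => ¬ ∀ n : ℕ, y ≤ n → (n : ℝ) ≤ (N : ℝ) ^ κ →
        Moments s δ (W n) n (value F a t)).card : ℝ) ≤ 1 / (y : ℝ) ^ A * N ∧
      ((((Ioc N (2 * N)).filter Nat.Prime).filter fun t => ¬ ∀ n : ℕ, y ≤ n → (n : ℝ) ≤ (N : ℝ) ^ κ →
        Moments s δ (W n) n (value F a t)).card : ℝ) ≤ 1 / (y : ℝ) ^ A * ((Ioc N (2 * N)).filter Nat.Prime).card := by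
  obtain ⟨Q, hQ⟩ : ∃ Q : Finset (ℕ × ℕ), Q = (range 8 ×ˢ range 3).filter (fun ij => ij.1 + 2 * ij.2 ≤ 5 ∨ (ij.1 ≤ 7 ∧ ij.2 = 0)) :=
    ⟨_, rfl⟩
  have hQm : ∀ ij : ℕ × ℕ, ij ∈ Q ↔ (ij.1 + 2 * ij.2 ≤ 5 ∨ (ij.1 ≤ 7 ∧ ij.2 = 0)) := by
    intro ij
    rw [hQ, mem_filter, mem_product, mem_range, mem_range]
    constructor
    · exact fun h => h.2
    · intro h
      refine ⟨⟨by omega, by omega⟩, h⟩
  obtain ⟨κ, hκ, y₀, hM⟩ := Pool.Agent.N647.TS.genT 5 s (by omega) hs (P := F) (a := a) (c := c) h hc δ hδ A B Q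
    (fun ij p m => Pool.Agent.Y57.FD.HM.tr 2 p m ^ ij.1 * Pool.Agent.V11210.G2.A2 2 p m ^ ij.2)
    (fun ij _ => moment ij.1 ij.2)
    (fun ij _ p _ m => by
      show Pool.Agent.Y57.FD.HM.tr 2 p m ^ ij.1 * Pool.Agent.V11210.G2.A2 2 p m ^ ij.2 =
        Pool.Agent.Y57.FD.HM.tr 2 p (fun j => m j % p) ^ ij.1 * Pool.Agent.V11210.G2.A2 2 p (fun j => m j % p) ^ ij.2
      rw [← Pool.Agent.Y57.FD.HM.tr_mod 2 p m, ← Pool.Agent.V11210.G2.A2_mod 2 p m])
    (fun ij _ => by
      refine ⟨(4 : ℝ) ^ ij.1 * (10 : ℝ) ^ ij.2 + |moment ij.1 ij.2|, fun p _ => ⟨fun m => ?_, ?_⟩⟩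
      · have h2 : |Pool.Agent.Y57.FD.HM.tr 2 p m ^ ij.1 * Pool.Agent.V11210.G2.A2 2 p m ^ ij.2| ≤ (4 : ℝ) ^ ij.1 * (10 : ℝ) ^ ij.2 := by
          rw [abs_mul, abs_pow, abs_pow]
          have e1 := Pool.Agent.Y57.FD.HM.tr_le 2 p m
          have e2 := Pool.Agent.V11210.G2.A2_le 2 p m
          refine mul_le_mul (pow_le_pow_left₀ (abs_nonneg _) (e1.trans (by norm_num)) _)
            (pow_le_pow_left₀ (abs_nonneg _) (e2.trans (by norm_num)) _) (by positivity) (by positivity)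
        have := abs_nonneg (moment ij.1 ij.2)
        exact h2.trans (by linarith)
      · have : (0 : ℝ) ≤ (4 : ℝ) ^ ij.1 * (10 : ℝ) ^ ij.2 := by positivity
        linarith)
    (fun ij hij => by
      obtain ⟨C, hC0, hC⟩ := Pool.Agent.V11210.G2.mean_joint 2 ij.1 ij.2
        (Pool.Agent.Results.MP_6dc561_nt.GenusTwoJointMoments.cond_eq _ _ ((hQm ij).1 hij))
      refine ⟨C, hC0, fun p hp => ?_⟩
      have hp0 : (0 : ℝ) < p := by exact_mod_cast hp.pos
      have hp1 : (1 : ℝ) ≤ p := by exact_mod_cast hp.one_lt.le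
      have h4 : Real.sqrt p ≤ p := by
        rw [Real.sqrt_le_left hp0.le]
        nlinarith
      show |Pool.Agent.TH894.NE.mean 5 p _ - moment ij.1 ij.2| ≤ _
      rw [Pool.Agent.Results.MP_6dc561_nt.GenusTwoJointMoments.moment_eq _ _ ((hQm ij).1 hij)]
      exact (hC p hp).trans (div_le_div_of_nonneg_left hC0 (Real.sqrt_pos.2 hp0) h4))
  refine ⟨κ, hκ, y₀, fun y N hy W hW hW1 => ?_⟩
  refine hM y N hy W hW hW1 (fun m => ∀ n : ℕ, y ≤ n → (n : ℝ) ≤ (N : ℝ) ^ κ → Moments s δ (W n) n m)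
    fun m hm n hyn hnN w hw i j hij => ?_
  have h1 := hm n hyn hnN w hw (fun e => (i e, j e)) (fun e => (hQm _).2 (hij e))
  have h2 : ∀ k : ℕ, ∏ e : Fin s, (a₁ (Nat.nth Nat.Prime (k + e)) m ^ i e * a₂ (Nat.nth Nat.Prime (k + e)) m ^ j e) =
      ∏ e : Fin s, (Pool.Agent.Y57.FD.HM.tr 2 (Pool.Agent.TH894.NF.pr (k + e)) m ^ i e *
        Pool.Agent.V11210.G2.A2 2 (Pool.Agent.TH894.NF.pr (k + e)) m ^ j e) := by
    intro k
    refine prod_congr rfl fun e _ => ?_
    rw [Pool.Agent.Results.MP_6dc561_nt.GenusTwoJointMoments.a₁_eq _ (Nat.prime_nth_prime _),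
      Pool.Agent.Results.MP_6dc561_nt.GenusTwoJointMoments.a₂_eq _ (Nat.prime_nth_prime _)]
    rfl
  have h3 : (∏ e : Fin s, moment (i e) (j e)) * ∑ k ∈ range n, w k =
      ∑ k ∈ range n, w k * ∏ e : Fin s, moment (i e) (j e) := by
    rw [mul_comm, sum_mul]
  simp only [h2]
  rw [h3]
  exact h1

end Pool.Agent.Results.MP_6dc561_nt.ThinSequences
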